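import Pool.Agent.helper95.SP.SpecCH
import Pool.Agent.helper64.TP.Basic

/-!
# Project sp, module KSX1: `SE1_stmt` for four arms without noise
-/

set_option autoImplicit false

namespace TP.K

open DP MeasureTheory

theorem SX1_loc (hGXL : GXL_stmt) (j : ℕ) (x : V) (n : ℕ) (D : Dat) :
    Loc (Ev fun c => Std c j true x n D) Set.univ := by
  have h1 := (hGXL j true x n D (zpt x n) (n / 64) (n / 8) true (Or.inl rfl)).1
  have h2 := (hGXL j true x n D (zpt x n) (n / 64) (n / 8) false (Or.inl rfl)).1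
  have h3 : (Ev fun c => Std c j true x n D) =
      (Ev fun c => MrkC c j true x n D (zpt x n) (n / 64) (n / 8) true) ∩
        (Ev fun c => MrkC c j true x n D (zpt x n) (n / 64) (n / 8) false) := rfl
  rw [h3]
  exact (h1.inter h2).mono (Set.subset_univ _)

theorem SX1_zero (hB : Bzero_stmt) (F : Set (V → Bool)) (hF : Loc F Set.univ) :
    Q (fun _ => 0) F F = Pr F := by
  rw [hB (fun _ => 0) F F Set.univ hF hF (fun _ _ => rfl), Set.inter_self]

theorem SX1 (hSE1 : SE1_stmt) (hGXL : GXL_stmt) (hBzero : Bzero_stmt) : SX1_stmt := by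
  obtain ⟨c₁, hc₁, i₁, h⟩ := hSE1
  refine ⟨c₁, hc₁, i₁, fun x D X i hx hi hok hX => ?_⟩
  have h0 := h 4 true (fun _ => 0) x D X i (Or.inr rfl) (fun _ => ⟨le_rfl, zero_le_one⟩) hx hi
    (by simpa using hok) (by simpa [Extra] using hX)
  have hnx : nx true (2 ^ i) = 2 ^ (i + 1) := by
    simp [nx, pow_succ, mul_comm]
  rw [hnx] at h0
  have hX' : Loc X Set.univ := hX.mono (Set.subset_univ _)
  have hl : ∀ n, Loc (X ∩ Ev fun c => Std c 4 true x n D) Set.univ := fun n =>
    (hX'.inter (SX1_loc hGXL 4 x n D)).mono (Set.subset_univ _)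
  rw [SX1_zero hBzero _ (hl _), SX1_zero hBzero _ (hl _)] at h0
  exact h0

end TP.K
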